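import Mathlib
import Pool.Agent.MP_cbf1af_ag.gam.AFinal

/-! For every abelian variety over the algebraic numbers with complex multiplication and every
`1 ≤ j ≤ 2 g`, the quotients of the periods of `H^j` generate a field of transcendence degree
`dim MT(H^j) - 1`. -/

namespace Pool.Agent.Results.MP_cbf1af_ag.CMPeriods

open Pool.Agent.MTG

theorem result (g N : ℕ) (Θ : Fin (N + 1) → (Fin g → ℂ) → ℂ) (Λ : AddSubgroup (Fin g → ℂ))
    (η : (Fin g → ℂ) → (Fin g → ℂ) →ₗ[ℂ] ℂ) (b : Module.Basis (Fin (2 * g)) ℝ (Fin g → ℂ))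
    (hA : Pool.Agent.CMQ.IsTheta Θ Λ η) (hb : Λ = AddSubgroup.closure (Set.range b))
    (hCM : IsCM b) (j : ℕ) (h₁ : 1 ≤ j) (h₂ : j ≤ 2 * g) :
    Algebra.trdeg ℚ (quotField (minors j (period η b))) + 1 = dim (MT b j) :=
  (Pool.Agent.GAM.cm_final g N Θ Λ η b hA hb hCM j h₁ h₂).1

end Pool.Agent.Results.MP_cbf1af_ag.CMPeriods
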