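import Mathlib
import Pool.Agent.MP_cbf1af_ag.gam.Final
import Pool.Agent.MP_cbf1af_ag.gam.Exc

/-! The field generated by `π` and the values `Γ(a / N)` has the transcendence degree
`φ(N) / 2 + 1` for all levels `N` which are not divisible by one possible exceptional level, and
`φ(N) / 2` for the others. -/

namespace Pool.Agent.Results.MP_cbf1af_ag.GammaValues

theorem result : ∃ N₀ : ℕ, N₀ ≠ 1 ∧ N₀ ≠ 2 ∧ ∀ N : ℕ, 3 ≤ N →
    Algebra.trdeg ℚ (IntermediateField.adjoin ℚ (insert Real.pi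
      {x : ℝ | ∃ a : ℕ, 0 < a ∧ a < N ∧ x = Real.Gamma ((a : ℝ) / N)})) =
        (N.totient / 2 + if N₀ ∣ N then 0 else 1 : ℕ) :=
  Pool.Agent.GAM.exc Pool.Agent.GAM.stick Pool.Agent.GAM.trd Pool.Agent.GAM.gamU_final

end Pool.Agent.Results.MP_cbf1af_ag.GammaValues
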