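import Mathlib
import Pool.Agent.MP_cbf1af_ag.shp.Final

/-! Relative period matrices of two abelian varieties over the algebraic numbers without
homomorphisms: if `2 g` matched periods span a complex space of dimension `g + μ`, then the
entries of `Ω₁⁻¹ Ω₂` generate a field of transcendence degree at least `g / μ`. -/

namespace Pool.Agent.Results.MP_cbf1af_ag.RelativePeriods

theorem result (g N₁ N₂ : ℕ)
    (Θ₁ : Fin (N₁ + 1) → (Fin g → ℂ) → ℂ) (Λ₁ : AddSubgroup (Fin g → ℂ))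
    (η₁ : (Fin g → ℂ) → (Fin g → ℂ) →ₗ[ℂ] ℂ) (h₁ : Pool.Agent.CMQ.IsTheta Θ₁ Λ₁ η₁)
    (Θ₂ : Fin (N₂ + 1) → (Fin g → ℂ) → ℂ) (Λ₂ : AddSubgroup (Fin g → ℂ))
    (η₂ : (Fin g → ℂ) → (Fin g → ℂ) →ₗ[ℂ] ℂ) (h₂ : Pool.Agent.CMQ.IsTheta Θ₂ Λ₂ η₂)
    (hom : ∀ φ : (Fin g → ℂ) →ₗ[ℂ] (Fin g → ℂ), (∀ l ∈ Λ₁, φ l ∈ Λ₂) → φ = 0)
    (lam₁ lam₂ : Fin (2 * g) → Fin g → ℂ) (m₁ : ∀ k, lam₁ k ∈ Λ₁) (m₂ : ∀ k, lam₂ k ∈ Λ₂)
    (i₁ : LinearIndependent ℤ lam₁) (i₂ : LinearIndependent ℤ lam₂) (μ : ℕ)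
    (hμ : Module.finrank ℂ (Submodule.span ℂ (Set.range fun k => (lam₁ k, lam₂ k))) = g + μ)
    (Γ : Matrix (Fin g ⊕ Fin g) (Fin g ⊕ Fin g) ℂ)
    (hΓ : ∀ k, Matrix.vecMul (Sum.elim (lam₁ k) fun j => η₁ (lam₁ k) (Pi.single j 1)) Γ =
      Sum.elim (lam₂ k) fun j => η₂ (lam₂ k) (Pi.single j 1))
    (t : ℕ) (ht : Algebra.trdeg ℚ (IntermediateField.adjoin ℚ {x : ℂ | ∃ a b, x = Γ a b}) ≤ t) :
    g ≤ μ * t := by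
  let e := LinearEquiv.sumArrowLequivProdArrow (Fin g) (Fin g) ℂ ℂ
  refine Pool.Agent.SHP.main_final g N₁ N₂ Θ₁ Λ₁ η₁ Θ₂ Λ₂ η₂ h₁ h₂ hom (Fin (2 * g)) lam₁ lam₂
    (Fintype.card_fin _) m₁ m₂
    (h₁.real_indep m₁ i₁) (h₂.real_indep m₂ i₂) μ hμ.le
    (e.toLinearMap ∘ₗ Γ.vecMulLinear ∘ₗ e.symm.toLinearMap) (fun k => ?_) _ (fun p h1 h2 => ?_) t ht
  · exact congrArg e (hΓ k)
  · have key : ∀ b, Matrix.vecMul (Sum.elim p.1 p.2) Γ b ∈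
        IntermediateField.adjoin ℚ {x : ℂ | ∃ a b, x = Γ a b} := fun b => by
      refine sum_mem (t := Finset.univ) fun a _ => mul_mem ?_
        (IntermediateField.subset_adjoin ℚ {x : ℂ | ∃ a b, x = Γ a b} ⟨a, b, rfl⟩)
      rcases a with a | a
      exacts [h1 a, h2 a]
    exact ⟨fun i => key (Sum.inl i), fun i => key (Sum.inr i)⟩

end Pool.Agent.Results.MP_cbf1af_ag.RelativePeriods
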