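import Mathlib
import Pool.Agent.MP_cbf1af_ag.gam.TwoFin

/-! If the Mumford-Tate group of the product of two CM abelian varieties over the algebraic
numbers is as large as possible, then the period conjecture holds for all cohomology groups of
one of the two factors. -/

namespace Pool.Agent.Results.MP_cbf1af_ag.TwoVarieties

open Pool.Agent.MTG

theorem result (g N : ℕ) (Θ : Fin (N + 1) → (Fin g → ℂ) → ℂ) (Λ : AddSubgroup (Fin g → ℂ))
    (η : (Fin g → ℂ) → (Fin g → ℂ) →ₗ[ℂ] ℂ) (b : Module.Basis (Fin (2 * g)) ℝ (Fin g → ℂ))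
    (h : Pool.Agent.CMQ.IsTheta Θ Λ η) (hb : Λ = AddSubgroup.closure (Set.range b)) (hc : IsCM b)
    (g' N' : ℕ) (Θ' : Fin (N' + 1) → (Fin g' → ℂ) → ℂ) (Λ' : AddSubgroup (Fin g' → ℂ))
    (η' : (Fin g' → ℂ) → (Fin g' → ℂ) →ₗ[ℂ] ℂ) (b' : Module.Basis (Fin (2 * g')) ℝ (Fin g' → ℂ))
    (h' : Pool.Agent.CMQ.IsTheta Θ' Λ' η') (hb' : Λ' = AddSubgroup.closure (Set.range b'))
    (hc' : IsCM b')
    (hd : dim (MT (g := g + g')
      (Fin.append (fun k => Fin.append (b k) 0) fun k => Fin.append 0 (b' k)) 1) + 1 =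
      dim (MT b 1) + dim (MT b' 1)) :
    (∀ j : ℕ, 1 ≤ j → j ≤ 2 * g →
      Algebra.trdeg ℚ (entryField (minors j (period η b))) = dim (MT b j)) ∨
    ∀ j : ℕ, 1 ≤ j → j ≤ 2 * g' →
      Algebra.trdeg ℚ (entryField (minors j (period η' b'))) = dim (MT b' j) :=
  Pool.Agent.GAM.TwoFin.two_final g N Θ Λ η b g' N' Θ' Λ' η' b' h hb hc h' hb' hc' hd

end Pool.Agent.Results.MP_cbf1af_ag.TwoVarieties
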